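import Mathlib
import Pool.Agent.Q256.UI.Stm

set_option autoImplicit false

/-!
# Divided differences for the polynomials near the asymptote (helper lemmas for project UI)
-/

namespace Pool.Agent.Q124.UI

open Finset Pool.Agent.Q256.UI

/-- The tail of `Q d a x u / x^(d-1)`: the terms with exponent at least `m` of `1/x`. -/
noncomputable def S (d : ℕ) (a : ℕ → ℕ → ℝ) (m : ℕ) (x u : ℝ) : ℝ :=
  ∑ k ∈ range (d + 1), ∑ j ∈ range (k + 1),
    if m ≤ d - 1 + j - k then a k j * u ^ j * (1 / x) ^ (d - 1 + j - k) else 0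

theorem pow_aux {x : ℝ} (hx : x ≠ 0) {p q i : ℕ} (h : p + i = q) :
    x ^ p / x ^ q = (1 / x) ^ i := by
  rw [← h, pow_add, one_div, inv_pow]
  field_simp

theorem Q_eq {d : ℕ} (hd : 2 ≤ d) {a : ℕ → ℕ → ℝ} (h0 : a d 0 = 0) {x : ℝ} (hx : x ≠ 0) (u : ℝ) :
    Q d a x u / x ^ (d - 1) = a d 1 * u + a (d - 1) 0 + S d a 1 x u := by
  have key : ∀ k ∈ range (d + 1), ∀ j ∈ range (k + 1),
      a k j * x ^ (k - j) * u ^ j / x ^ (d - 1) =
      ((if k = d then (if j = 1 then a d 1 * u else 0) else 0) +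
        (if k = d - 1 then (if j = 0 then a (d - 1) 0 else 0) else 0)) +
      (if 1 ≤ d - 1 + j - k then a k j * u ^ j * (1 / x) ^ (d - 1 + j - k) else 0) := by
    intro k hk j hj
    rw [mem_range] at hk hj
    have hxp : x ^ (d - 1) ≠ 0 := pow_ne_zero _ hx
    by_cases hi : 1 ≤ d - 1 + j - k
    · rw [if_pos hi]
      have h1 : ¬ (k = d ∧ j = 1) := by omega
      have h2 : ¬ (k = d - 1 ∧ j = 0) := by omega
      have e1 : (if k = d then (if j = 1 then a d 1 * u else 0) else 0) = 0 := by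
        split_ifs <;> first | rfl | (exfalso; apply h1; exact ⟨by assumption, by assumption⟩)
      have e2 : (if k = d - 1 then (if j = 0 then a (d - 1) 0 else 0) else 0) = 0 := by
        split_ifs <;> first | rfl | (exfalso; apply h2; exact ⟨by assumption, by assumption⟩)
      rw [e1, e2, ← pow_aux hx (p := k - j) (q := d - 1) (by omega)]
      ring
    · rw [if_neg hi]
      have hc : (k = d ∧ j = 0) ∨ (k = d ∧ j = 1) ∨ (k = d - 1 ∧ j = 0) := by omega
      rcases hc with ⟨rfl, rfl⟩ | ⟨rfl, rfl⟩ | ⟨rfl, rfl⟩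
      · rw [h0, if_pos rfl, if_neg (by norm_num), if_neg (by omega)]
        simp
      · rw [if_pos rfl, if_pos rfl, if_neg (by omega)]
        field_simp
        ring
      · rw [if_neg (by omega), if_pos rfl, if_pos rfl]
        simp only [Nat.sub_zero, pow_zero]
        field_simp
        ring
  unfold Q S
  rw [Finset.sum_div]
  have e : ∀ k ∈ range (d + 1), (∑ j ∈ range (k + 1), a k j * x ^ (k - j) * u ^ j) / x ^ (d - 1) =
      (∑ j ∈ range (k + 1), ((if k = d then (if j = 1 then a d 1 * u else 0) else 0) +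
        (if k = d - 1 then (if j = 0 then a (d - 1) 0 else 0) else 0))) +
      ∑ j ∈ range (k + 1), (if 1 ≤ d - 1 + j - k then a k j * u ^ j * (1 / x) ^ (d - 1 + j - k)
        else 0) := by
    intro k hk
    rw [Finset.sum_div, ← Finset.sum_add_distrib]
    exact Finset.sum_congr rfl (key k hk)
  rw [Finset.sum_congr rfl e, Finset.sum_add_distrib]
  congr 1
  have e3 : ∀ k ∈ range (d + 1), (∑ j ∈ range (k + 1),
      ((if k = d then (if j = 1 then a d 1 * u else 0) else 0) +
        (if k = d - 1 then (if j = 0 then a (d - 1) 0 else 0) else 0))) =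
      (if k = d then a d 1 * u else 0) + (if k = d - 1 then a (d - 1) 0 else 0) := by
    intro k hk
    rw [Finset.sum_add_distrib]
    congr 1
    · by_cases h : k = d
      · subst h
        simp only [if_true]
        rw [Finset.sum_ite_eq' (range (k + 1)) 1, if_pos (mem_range.2 (by omega))]
      · simp [h]
    · by_cases h : k = d - 1
      · simp only [h, if_true]
        rw [Finset.sum_ite_eq' (range (d - 1 + 1)) 0, if_pos (mem_range.2 (by omega))]
      · simp [h]
  rw [Finset.sum_congr rfl e3, Finset.sum_add_distrib,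
    Finset.sum_ite_eq' (range (d + 1)) d, Finset.sum_ite_eq' (range (d + 1)) (d - 1),
    if_pos (mem_range.2 (by omega)), if_pos (mem_range.2 (by omega))]

theorem S_one {d : ℕ} (hd : 3 ≤ d) (a : ℕ → ℕ → ℝ) (x u : ℝ) :
    S d a 1 x u = (a d 2 * u ^ 2 + a (d - 1) 1 * u + a (d - 2) 0) * (1 / x) + S d a 2 x u := by
  have key : ∀ k ∈ range (d + 1), ∀ j ∈ range (k + 1),
      (if 1 ≤ d - 1 + j - k then a k j * u ^ j * (1 / x) ^ (d - 1 + j - k) else 0) =
      ((if k = d then (if j = 2 then a d 2 * u ^ 2 * (1 / x) else 0) else 0) +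
        (if k = d - 1 then (if j = 1 then a (d - 1) 1 * u * (1 / x) else 0) else 0) +
        (if k = d - 2 then (if j = 0 then a (d - 2) 0 * (1 / x) else 0) else 0)) +
      (if 2 ≤ d - 1 + j - k then a k j * u ^ j * (1 / x) ^ (d - 1 + j - k) else 0) := by
    intro k hk j hj
    rw [mem_range] at hk hj
    by_cases h1 : d - 1 + j - k = 1
    · rw [if_pos (show 1 ≤ d - 1 + j - k by omega), if_neg (show ¬ 2 ≤ d - 1 + j - k by omega)]
      have hc : (k = d ∧ j = 2) ∨ (k = d - 1 ∧ j = 1) ∨ (k = d - 2 ∧ j = 0) := by omega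
      rcases hc with ⟨rfl, rfl⟩ | ⟨rfl, rfl⟩ | ⟨rfl, rfl⟩
      · rw [if_pos rfl, if_pos rfl, if_neg (by omega), if_neg (by omega), h1]
        ring
      · rw [if_neg (by omega), if_pos rfl, if_pos rfl, if_neg (by omega), h1]
        ring
      · rw [if_neg (by omega), if_neg (by omega), if_pos rfl, if_pos rfl, h1]
        ring
    · have n1 : ¬ (k = d ∧ j = 2) := by omega
      have n2 : ¬ (k = d - 1 ∧ j = 1) := by omega
      have n3 : ¬ (k = d - 2 ∧ j = 0) := by omega
      have e1 : (if k = d then (if j = 2 then a d 2 * u ^ 2 * (1 / x) else 0) else 0) = 0 := by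
        split_ifs <;> first | rfl | (exfalso; apply n1; exact ⟨by assumption, by assumption⟩)
      have e2 : (if k = d - 1 then (if j = 1 then a (d - 1) 1 * u * (1 / x) else 0) else 0) = 0 := by
        split_ifs <;> first | rfl | (exfalso; apply n2; exact ⟨by assumption, by assumption⟩)
      have e3 : (if k = d - 2 then (if j = 0 then a (d - 2) 0 * (1 / x) else 0) else 0) = 0 := by
        split_ifs <;> first | rfl | (exfalso; apply n3; exact ⟨by assumption, by assumption⟩)
      rw [e1, e2, e3]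
      by_cases h2 : 2 ≤ d - 1 + j - k
      · rw [if_pos (show 1 ≤ d - 1 + j - k by omega), if_pos h2]
        ring
      · rw [if_neg (show ¬ 1 ≤ d - 1 + j - k by omega), if_neg h2]
        ring
  unfold S
  have e : ∀ k ∈ range (d + 1), (∑ j ∈ range (k + 1),
      if 1 ≤ d - 1 + j - k then a k j * u ^ j * (1 / x) ^ (d - 1 + j - k) else 0) =
      ((if k = d then a d 2 * u ^ 2 * (1 / x) else 0) +
        (if k = d - 1 then a (d - 1) 1 * u * (1 / x) else 0) +
        (if k = d - 2 then a (d - 2) 0 * (1 / x) else 0)) +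
      ∑ j ∈ range (k + 1), (if 2 ≤ d - 1 + j - k then a k j * u ^ j * (1 / x) ^ (d - 1 + j - k)
        else 0) := by
    intro k hk
    rw [Finset.sum_congr rfl (key k hk), Finset.sum_add_distrib, Finset.sum_add_distrib,
      Finset.sum_add_distrib]
    congr 1
    congr 1
    · congr 1
      · by_cases h : k = d
        · simp only [h, if_true]
          rw [Finset.sum_ite_eq' (range (d + 1)) 2, if_pos (mem_range.2 (by omega))]
        · simp [h]
      · by_cases h : k = d - 1
        · simp only [h, if_true]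
          rw [Finset.sum_ite_eq' (range (d - 1 + 1)) 1, if_pos (mem_range.2 (by omega))]
        · simp [h]
    · by_cases h : k = d - 2
      · simp only [h, if_true]
        rw [Finset.sum_ite_eq' (range (d - 2 + 1)) 0, if_pos (mem_range.2 (by omega))]
      · simp [h]
  rw [Finset.sum_congr rfl e, Finset.sum_add_distrib, Finset.sum_add_distrib,
    Finset.sum_add_distrib,
    Finset.sum_ite_eq' (range (d + 1)) d, Finset.sum_ite_eq' (range (d + 1)) (d - 1),
    Finset.sum_ite_eq' (range (d + 1)) (d - 2),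
    if_pos (mem_range.2 (by omega)), if_pos (mem_range.2 (by omega)),
    if_pos (mem_range.2 (by omega))]
  ring

/-- The size of the coefficients after rescaling. -/
theorem coef {d : ℕ} {A H T : ℝ} {a : ℕ → ℕ → ℝ} (hA : 1 ≤ A) (hH : 1 ≤ H) (hT : A * H ≤ T)
    (hB : Bd d A H a) {m k j : ℕ} (hm : 1 ≤ m) (hk : k ≤ d) (hj : j ≤ k)
    (hi : m ≤ d - 1 + j - k) :
    |a k j * (A * H) ^ j / T ^ (d - 1 + j - k)| ≤ A ^ 2 * H * (A * H / T) ^ m := by
  set i := d - 1 + j - k with hidef
  have hAH : 1 ≤ A * H := by nlinarith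
  have hT0 : 0 < T := by linarith
  have hAH0 : 0 < A * H := by linarith
  have h1 : |a k j| * (A * H) ^ j ≤ A ^ 2 * H * (A * H) ^ i := by
    rcases Nat.lt_or_ge k d with hlt | hge
    · have hji : j ≤ i := by omega
      have e1 := hB.low k j hlt hj
      have e2 : (A * H) ^ j ≤ (A * H) ^ i := pow_le_pow_right₀ hAH hji
      have e3 : A * H ≤ A ^ 2 * H := by nlinarith
      calc |a k j| * (A * H) ^ j ≤ (A ^ 2 * H) * (A * H) ^ i :=
            mul_le_mul (e1.trans e3) e2 (by positivity) (by positivity)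
        _ = A ^ 2 * H * (A * H) ^ i := rfl
    · have hkd : k = d := by omega
      have hji : j = i + 1 := by omega
      have e1 := hB.top j (by omega)
      rw [hkd, hji]
      rw [hji] at e1
      calc |a d (i + 1)| * (A * H) ^ (i + 1) ≤ A * (A * H) ^ (i + 1) :=
            mul_le_mul_of_nonneg_right e1 (by positivity)
        _ = A ^ 2 * H * (A * H) ^ i := by ring
  have h2 : (A * H / T) ^ i ≤ (A * H / T) ^ m := by
    apply pow_le_pow_of_le_one (by positivity)
    · rw [div_le_one hT0]; exact hT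
    · exact hi
  rw [abs_div, abs_mul, abs_of_pos (pow_pos hAH0 j), abs_of_pos (pow_pos hT0 i)]
  calc |a k j| * (A * H) ^ j / T ^ i ≤ A ^ 2 * H * (A * H) ^ i / T ^ i :=
        div_le_div_of_nonneg_right h1 (by positivity)
    _ = A ^ 2 * H * (A * H / T) ^ i := by rw [div_pow]; ring
    _ ≤ _ := mul_le_mul_of_nonneg_left h2 (by positivity)

/-- A double sum with bounded terms. -/
theorem dsum {d : ℕ} {f : ℕ → ℕ → ℝ} {M : ℝ} (hM : 0 ≤ M)
    (h : ∀ k, k ≤ d → ∀ j, j ≤ k → |f k j| ≤ M) :
    |∑ k ∈ range (d + 1), ∑ j ∈ range (k + 1), f k j| ≤ ((d : ℝ) + 1) ^ 2 * M := by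
  have h1 : ∀ k ∈ range (d + 1), |∑ j ∈ range (k + 1), f k j| ≤ ((d : ℝ) + 1) * M := by
    intro k hk
    rw [mem_range] at hk
    calc |∑ j ∈ range (k + 1), f k j| ≤ ∑ j ∈ range (k + 1), |f k j| := abs_sum_le_sum_abs _ _
      _ ≤ ∑ j ∈ range (k + 1), M := Finset.sum_le_sum fun j hj => by
          rw [mem_range] at hj
          exact h k (by omega) j (by omega)
      _ = ((k : ℝ) + 1) * M := by simp
      _ ≤ ((d : ℝ) + 1) * M := by
          apply mul_le_mul_of_nonneg_right _ hM
          have : (k : ℝ) ≤ d := by exact_mod_cast (by omega : k ≤ d)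
          linarith
  calc |∑ k ∈ range (d + 1), ∑ j ∈ range (k + 1), f k j|
      ≤ ∑ k ∈ range (d + 1), |∑ j ∈ range (k + 1), f k j| := abs_sum_le_sum_abs _ _
    _ ≤ ∑ k ∈ range (d + 1), ((d : ℝ) + 1) * M := Finset.sum_le_sum h1
    _ = ((d : ℝ) + 1) ^ 2 * M := by simp; ring

/-- Rescaling of a term. -/
theorem term_eq {B T x u c : ℝ} (hB : B ≠ 0) (hT : T ≠ 0) (i j : ℕ) :
    c * u ^ j * (1 / x) ^ i = c * B ^ j / T ^ i * ((u / B) ^ j * (T / x) ^ i) := by
  rw [div_pow, div_pow, div_pow, one_pow]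
  by_cases hx : x = 0
  · subst hx
    rcases Nat.eq_zero_or_pos i with rfl | hi
    · simp
      field_simp
    · simp [zero_pow (by omega : i ≠ 0)]
  · field_simp

theorem abs_mul_sub_le {p q r s : ℝ} (hp : |p| ≤ 1) (hs : |s| ≤ 1) :
    |p * q - r * s| ≤ |p - r| + |q - s| := by
  have e : p * q - r * s = p * (q - s) + (p - r) * s := by ring
  rw [e]
  calc |p * (q - s) + (p - r) * s| ≤ |p * (q - s)| + |(p - r) * s| := abs_add_le _ _
    _ = |p| * |q - s| + |p - r| * |s| := by rw [abs_mul, abs_mul]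
    _ ≤ 1 * |q - s| + |p - r| * 1 := by
        gcongr
    _ = _ := by ring

theorem abs_pow_le' {p : ℝ} (hp : |p| ≤ 1) (n : ℕ) : |p ^ n| ≤ 1 := by
  rw [abs_pow]; exact pow_le_one₀ (abs_nonneg _) hp

theorem abs_pow_sub_le {p r : ℝ} (hp : |p| ≤ 1) (hr : |r| ≤ 1) (n : ℕ) :
    |p ^ n - r ^ n| ≤ n * |p - r| := by
  induction n with
  | zero => simp
  | succ n ih =>
    rw [pow_succ, pow_succ]
    have := abs_mul_sub_le (p := p ^ n) (q := p) (r := r ^ n) (s := r) (abs_pow_le' hp n) hr
    push_cast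
    linarith

/-- Difference of `T / x`. -/
theorem inv_sub {T x y : ℝ} (hT : 0 < T) (hx : T ≤ x) (hy : T ≤ y) :
    |T / x - T / y| ≤ |x - y| / T := by
  have hx0 : 0 < x := by linarith
  have hy0 : 0 < y := by linarith
  have e : T / x - T / y = T * (y - x) / (x * y) := by field_simp
  rw [e, abs_div, abs_mul, abs_of_pos hT, abs_of_pos (mul_pos hx0 hy0), abs_sub_comm,
    div_le_div_iff₀ (by positivity) hT]
  have : T * T ≤ x * y := mul_le_mul hx hy hT.le hx0.le
  nlinarith [abs_nonneg (x - y)]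

theorem inv_le {T x : ℝ} (hT : 0 < T) (hx : T ≤ x) : |T / x| ≤ 1 := by
  rw [abs_of_pos (div_pos hT (by linarith)), div_le_one (by linarith)]; exact hx

theorem scl_le {B u : ℝ} (hB : 0 < B) (hu : |u| ≤ B) : |u / B| ≤ 1 := by
  rw [abs_div, abs_of_pos hB, div_le_one hB]; exact hu

end Pool.Agent.Q124.UI
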