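import Mathlib
import Pool.Agent.Q124.UI.Base

set_option autoImplicit false

/-!
# DD1 (first differences) and SPC (the spacing)
-/

namespace Pool.Agent.Q124.UI

open Finset Pool.Agent.Q256.UI

theorem S_sub {d : ℕ} {A H T : ℝ} {a : ℕ → ℕ → ℝ} (hA : 1 ≤ A) (hH : 1 ≤ H) (hT : A * H ≤ T)
    (hB : Bd d A H a) {m : ℕ} (hm : 1 ≤ m) {x y u v : ℝ} (hx : T ≤ x) (hy : T ≤ y)
    (hu : |u| ≤ A * H) (hv : |v| ≤ A * H) :
    |S d a m x u - S d a m y v| ≤ ((d : ℝ) + 1) ^ 2 *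
      (A ^ 2 * H * (A * H / T) ^ m * (d * (|u - v| / (A * H)) + d * (|x - y| / T))) := by
  have hAH : 1 ≤ A * H := by nlinarith
  have hT0 : 0 < T := by linarith
  have hAH0 : 0 < A * H := by linarith
  unfold S
  rw [← Finset.sum_sub_distrib]
  have e : ∀ k ∈ range (d + 1),
      ((∑ j ∈ range (k + 1), if m ≤ d - 1 + j - k then a k j * u ^ j * (1 / x) ^ (d - 1 + j - k)
        else 0) - ∑ j ∈ range (k + 1), if m ≤ d - 1 + j - k then
          a k j * v ^ j * (1 / y) ^ (d - 1 + j - k) else 0) =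
      ∑ j ∈ range (k + 1), ((if m ≤ d - 1 + j - k then a k j * u ^ j * (1 / x) ^ (d - 1 + j - k)
        else 0) - (if m ≤ d - 1 + j - k then
          a k j * v ^ j * (1 / y) ^ (d - 1 + j - k) else 0)) := fun k _ => by
    rw [Finset.sum_sub_distrib]
  rw [Finset.sum_congr rfl e]
  apply dsum (by positivity)
  intro k hk j hj
  split_ifs with hi
  · rw [term_eq hAH0.ne' hT0.ne', term_eq hAH0.ne' hT0.ne', ← mul_sub, abs_mul]
    apply mul_le_mul (coef hA hH hT hB hm hk hj hi) _ (abs_nonneg _) (by positivity)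
    have h1 := abs_mul_sub_le (p := (u / (A * H)) ^ j) (q := (T / x) ^ (d - 1 + j - k))
      (r := (v / (A * H)) ^ j) (s := (T / y) ^ (d - 1 + j - k))
      (abs_pow_le' (scl_le hAH0 hu) j) (abs_pow_le' (inv_le hT0 hy) _)
    have h2 := abs_pow_sub_le (scl_le hAH0 hu) (scl_le hAH0 hv) j
    have h3 := abs_pow_sub_le (inv_le hT0 hx) (inv_le hT0 hy) (d - 1 + j - k)
    have h4 : |u / (A * H) - v / (A * H)| = |u - v| / (A * H) := by
      rw [← sub_div, abs_div, abs_of_pos hAH0]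
    rw [h4] at h2
    have h5 := inv_sub hT0 hx hy
    have h6 : (j : ℝ) * (|u - v| / (A * H)) ≤ d * (|u - v| / (A * H)) := by
      apply mul_le_mul_of_nonneg_right _ (by positivity)
      exact_mod_cast hj.trans hk
    have h7 : ((d - 1 + j - k : ℕ) : ℝ) * |T / x - T / y| ≤ d * (|x - y| / T) := by
      apply mul_le_mul _ h5 (abs_nonneg _) (by positivity)
      exact_mod_cast (by omega : d - 1 + j - k ≤ d)
    linarith
  · simp only [sub_zero, abs_zero]
    positivity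

theorem S_bd {d : ℕ} {A H T : ℝ} {a : ℕ → ℕ → ℝ} (hA : 1 ≤ A) (hH : 1 ≤ H) (hT : A * H ≤ T)
    (hB : Bd d A H a) {m : ℕ} (hm : 1 ≤ m) {x u : ℝ} (hx : T ≤ x)
    (hu : |u| ≤ A * H) :
    |S d a m x u| ≤ ((d : ℝ) + 1) ^ 2 * (A ^ 2 * H * (A * H / T) ^ m) := by
  have hAH : 1 ≤ A * H := by nlinarith
  have hT0 : 0 < T := by linarith
  have hAH0 : 0 < A * H := by linarith
  unfold S
  apply dsum (by positivity)
  intro k hk j hj
  split_ifs with hi
  · rw [term_eq hAH0.ne' hT0.ne', abs_mul]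
    calc |a k j * (A * H) ^ j / T ^ (d - 1 + j - k)| *
        |(u / (A * H)) ^ j * (T / x) ^ (d - 1 + j - k)| ≤ (A ^ 2 * H * (A * H / T) ^ m) * 1 := by
          apply mul_le_mul (coef hA hH hT hB hm hk hj hi) _ (abs_nonneg _) (by positivity)
          rw [abs_mul]
          exact mul_le_one₀ (abs_pow_le' (scl_le hAH0 hu) j) (abs_nonneg _)
            (abs_pow_le' (inv_le hT0 hx) _)
      _ = _ := mul_one _
  · simp only [abs_zero]
    positivity

theorem eps_le {d : ℕ} {a : ℕ → ℕ → ℝ} {T W x u : ℝ} (hT : 0 < T) (hx : T ≤ x) (hW : 0 ≤ W)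
    (h : |Q d a x u| ≤ W) : |Q d a x u / x ^ (d - 1)| ≤ W / T ^ (d - 1) := by
  have hx0 : 0 < x := by linarith
  rw [abs_div, abs_of_pos (pow_pos hx0 _)]
  apply div_le_div₀ hW h (pow_pos hT _)
  exact pow_le_pow_left₀ hT.le hx _

theorem dd1 : S_DD1 := by
  intro d A hd hA
  have hd0 : (5 : ℝ) ≤ d := by exact_mod_cast hd
  obtain ⟨n, hn⟩ : ∃ n : ℝ, n = ((d : ℝ) + 1) ^ 2 := ⟨_, rfl⟩
  have hn1 : 1 ≤ n := by rw [hn]; nlinarith
  have hA3 : 1 ≤ A ^ 3 := one_le_pow₀ hA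
  have hA4 : A ^ 3 ≤ A ^ 4 := pow_le_pow_right₀ hA (by norm_num)
  have hnd : 1 ≤ n * d := by nlinarith
  refine ⟨4 * (n * d) * A ^ 4 + 4 * A, by nlinarith, ?_⟩
  intro H T W a hH hT hB hW x y u v hx hx2 hy hy2 hu hv hQ1 hQ2
  have hAT : A * H ≤ T := by
    refine le_trans ?_ hT
    apply mul_le_mul_of_nonneg_right _ (by linarith)
    have : 0 ≤ 4 * (n * d) * A ^ 4 := by positivity
    linarith
  have hAH : 1 ≤ A * H := by nlinarith
  have hT0 : 0 < T := by linarith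
  have hAH0 : 0 < A * H := by linarith
  have hH0 : 0 < H := by linarith
  have e1 := Q_eq (by omega : 2 ≤ d) hB.zero (by linarith : x ≠ 0) u
  have e2 := Q_eq (by omega : 2 ≤ d) hB.zero (by linarith : y ≠ 0) v
  have b1 := eps_le hT0 hx hW hQ1
  have b2 := eps_le hT0 hy hW hQ2
  have b3 := S_sub hA hH hAT hB (le_refl 1) hx hy hu hv
  rw [← hn] at b3
  have h1 : a d 1 * (u - v) = (Q d a x u / x ^ (d - 1)) - (Q d a y v / y ^ (d - 1)) -
      (S d a 1 x u - S d a 1 y v) := by rw [e1, e2]; ring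
  have h2 : |a d 1| * |u - v| ≤ W / T ^ (d - 1) + W / T ^ (d - 1) + n *
      (A ^ 2 * H * (A * H / T) ^ 1 * (d * (|u - v| / (A * H)) + d * (|x - y| / T))) := by
    rw [← abs_mul, h1]
    refine (abs_sub _ _).trans ?_
    refine add_le_add ((abs_sub _ _).trans (add_le_add b1 b2)) b3
  have h3 : |u - v| ≤ A * (|a d 1| * |u - v|) := by
    rw [← mul_assoc]
    nlinarith [hB.one, abs_nonneg (u - v)]
  have hw0 : 0 ≤ W / T ^ (d - 1) := by positivity
  generalize W / T ^ (d - 1) = w at b1 b2 h2 hw0 ⊢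
  have e3 : n * (A ^ 2 * H * (A * H / T) ^ 1 * (d * (|u - v| / (A * H)) + d * (|x - y| / T))) =
      (n * d * A ^ 2) * (H / T) * |u - v| + (n * d * A ^ 3) * (H ^ 2 / T ^ 2 * |x - y|) := by
    field_simp
  rw [e3] at h2
  have h4 : A * ((n * d * A ^ 2) * (H / T) * |u - v|) ≤ 1 / 2 * |u - v| := by
    have : A * ((n * d * A ^ 2) * (H / T)) ≤ 1 / 2 := by
      have h8 : 2 * (n * d * A ^ 3) * H ≤ T := by
        refine le_trans ?_ hT
        apply mul_le_mul_of_nonneg_right _ (by linarith)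
        have h9 : (n * d) * A ^ 3 ≤ (n * d) * A ^ 4 := mul_le_mul_of_nonneg_left hA4 (by positivity)
        have h10 : 0 ≤ (n * d) * A ^ 3 := by positivity
        linarith
      have e8 : A * ((n * d * A ^ 2) * (H / T)) = (n * d * A ^ 3) * H / T := by ring
      rw [e8, div_le_iff₀ hT0]
      linarith
    calc A * ((n * d * A ^ 2) * (H / T) * |u - v|) = (A * ((n * d * A ^ 2) * (H / T))) * |u - v| := by
          ring
      _ ≤ _ := mul_le_mul_of_nonneg_right this (abs_nonneg _)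
  have h5 : |u - v| ≤ A * (w + w) + 1 / 2 * |u - v| +
      A * ((n * d * A ^ 3) * (H ^ 2 / T ^ 2 * |x - y|)) := by
    calc |u - v| ≤ A * (|a d 1| * |u - v|) := h3
      _ ≤ A * (w + w + ((n * d * A ^ 2) * (H / T) * |u - v| +
          (n * d * A ^ 3) * (H ^ 2 / T ^ 2 * |x - y|))) := mul_le_mul_of_nonneg_left h2 (by linarith)
      _ = A * (w + w) + A * ((n * d * A ^ 2) * (H / T) * |u - v|) +
          A * ((n * d * A ^ 3) * (H ^ 2 / T ^ 2 * |x - y|)) := by ring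
      _ ≤ _ := by linarith
  have hz : 0 ≤ H ^ 2 / T ^ 2 * |x - y| := by positivity
  generalize H ^ 2 / T ^ 2 * |x - y| = zz at h5 hz ⊢
  have h6 : |u - v| ≤ 4 * A * w + 2 * (n * d * A ^ 4) * zz := by
    have e6 : A * (n * d * A ^ 3 * zz) = n * d * A ^ 4 * zz := by ring
    rw [e6] at h5
    linarith
  have p1 : 0 ≤ n * d * A ^ 4 := by positivity
  have p2 : 0 ≤ (n * d * A ^ 4) * w := by positivity
  have p3 : 0 ≤ (n * d * A ^ 4) * zz := by positivity
  have p4 : 0 ≤ A * zz := by positivity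
  have e7 : (4 * (n * d) * A ^ 4 + 4 * A) * (zz + w) = 4 * (n * d * A ^ 4 * zz) +
      4 * (n * d * A ^ 4 * w) + 4 * (A * zz) + 4 * A * w := by ring
  rw [e7]
  linarith

end Pool.Agent.Q124.UI
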