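import Mathlib
import Pool.Agent.Q256.UI.Stm

set_option autoImplicit false

/-!
# SPC (the spacing)
-/

namespace Pool.Agent.Q124.UI

open Finset Pool.Agent.Q256.UI

theorem W_le {d : ℕ} (hd : 3 ≤ d) {A H T W : ℝ} (hT : 0 < T) (h : W ≤ A * H * T ^ (d - 3)) :
    W / T ^ (d - 1) ≤ A * H / T ^ 2 := by
  rw [div_le_div_iff₀ (by positivity) (by positivity)]
  have e : T ^ (d - 1) = T ^ (d - 3) * T ^ 2 := by rw [← pow_add]; congr 1; omega
  rw [e]
  calc W * T ^ 2 ≤ (A * H * T ^ (d - 3)) * T ^ 2 := mul_le_mul_of_nonneg_right h (by positivity)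
    _ = _ := by ring

theorem spc : S_DD1 → S_SPC := by
  intro h1 d A hd hA
  obtain ⟨C, hC, h⟩ := h1 d A hd hA
  have hA2 : A ≤ A ^ 2 := by nlinarith
  refine ⟨2 * C * A ^ 2, by nlinarith, ?_⟩
  intro H T W θ a hH hT hB hL hW hW2 p hp q hq hne
  have hH0 : 0 < H := by linarith
  have hCH : C * H ≤ T := by
    refine le_trans ?_ hT
    apply mul_le_mul_of_nonneg_right _ hH0.le
    nlinarith
  have hT0 : 0 < T := by nlinarith
  have hT1 : 1 ≤ T := by nlinarith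
  obtain ⟨p1, p2, p3, p4⟩ := hp
  obtain ⟨q1, q2, q3, q4⟩ := hq
  have hh := h H T W a hH hCH hB hW p.1 q.1 (p.2 - θ * p.1) (q.2 - θ * q.1) p1 p2 q1 q2 p3 q3 p4 q4
  have hw := W_le (by omega : 3 ≤ d) hT0 hW2
  have h2 : |((p.2 : ℝ) - θ * p.1) - (q.2 - θ * q.1)| ≤
      C * (H ^ 2 / T ^ 2 * |(p.1 : ℝ) - q.1| + A * H / T ^ 2) := by
    refine hh.trans ?_
    apply mul_le_mul_of_nonneg_left _ (by linarith)
    linarith
  have hne1 : p.1 ≠ q.1 := by
    intro he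
    have hne2 : p.2 ≠ q.2 := fun h2 => hne (Prod.ext he h2)
    have h3 : (1 : ℝ) ≤ |(p.2 : ℝ) - q.2| := by
      have : 1 ≤ |p.2 - q.2| := Int.one_le_abs (sub_ne_zero.2 hne2)
      exact_mod_cast this
    have h4 : ((p.2 : ℝ) - θ * p.1) - (q.2 - θ * q.1) = p.2 - q.2 := by rw [he]; ring
    rw [h4, he, sub_self, abs_zero, mul_zero, zero_add] at h2
    have h5 : C * (A * H / T ^ 2) < 1 := by
      rw [← mul_div_assoc, div_lt_one (by positivity)]
      have h6 : 2 * (C * A ^ 2 * H) ≤ T ^ 2 := by nlinarith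
      have h7 : C * (A * H) ≤ C * A ^ 2 * H := by
        have : A * (C * H) ≤ A ^ 2 * (C * H) := mul_le_mul_of_nonneg_right hA2 (by positivity)
        nlinarith
      have h8 : 0 < C * (A * H) := by positivity
      linarith
    linarith
  refine ⟨hne1, ?_⟩
  have hb : 1 ≤ |p.1 - q.1| := Int.one_le_abs (sub_ne_zero.2 hne1)
  have hbr : (1 : ℝ) ≤ |(p.1 : ℝ) - q.1| := by exact_mod_cast hb
  have h3 : |((p.2 : ℝ) - θ * p.1) - (q.2 - θ * q.1)| ≤
      2 * C * A * (H ^ 2 / T ^ 2) * |(p.1 : ℝ) - q.1| := by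
    refine h2.trans ?_
    have h4 : A * H / T ^ 2 ≤ A * (H ^ 2 / T ^ 2) * |(p.1 : ℝ) - q.1| := by
      have h5 : A * H / T ^ 2 ≤ A * (H ^ 2 / T ^ 2) := by
        rw [← mul_div_assoc]
        apply div_le_div_of_nonneg_right _ (by positivity)
        apply mul_le_mul_of_nonneg_left _ (by linarith)
        nlinarith
      have h6 : 0 ≤ A * (H ^ 2 / T ^ 2) := by positivity
      nlinarith
    have h5 : H ^ 2 / T ^ 2 * |(p.1 : ℝ) - q.1| ≤ A * (H ^ 2 / T ^ 2) * |(p.1 : ℝ) - q.1| := by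
      have h6 : 0 ≤ (H ^ 2 / T ^ 2) * |(p.1 : ℝ) - q.1| := by positivity
      nlinarith
    calc C * (H ^ 2 / T ^ 2 * |(p.1 : ℝ) - q.1| + A * H / T ^ 2) ≤
        C * (A * (H ^ 2 / T ^ 2) * |(p.1 : ℝ) - q.1| + A * (H ^ 2 / T ^ 2) * |(p.1 : ℝ) - q.1|) :=
          mul_le_mul_of_nonneg_left (add_le_add h5 h4) (by linarith)
      _ = _ := by ring
  -- Liouville
  obtain ⟨c, hc⟩ : ∃ c : ℤ, |((|p.1 - q.1| : ℤ) : ℝ) * θ - c| =
      |((p.2 : ℝ) - θ * p.1) - (q.2 - θ * q.1)| := by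
    rcases abs_choice (p.1 - q.1) with hs | hs
    · refine ⟨p.2 - q.2, ?_⟩
      rw [hs, abs_sub_comm]
      push_cast
      congr 1; ring
    · refine ⟨-(p.2 - q.2), ?_⟩
      rw [hs]
      push_cast
      congr 1; ring
  have h6 := hL c |p.1 - q.1| hb
  rw [hc] at h6
  have e1 : ((|p.1 - q.1| : ℤ) : ℝ) = |(p.1 : ℝ) - q.1| := by push_cast; rfl
  rw [e1] at h6
  obtain ⟨B, hBe⟩ : ∃ B : ℝ, B = |(p.1 : ℝ) - q.1| := ⟨_, rfl⟩
  rw [← hBe] at h6 h3 hbr ⊢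
  have hB0 : 0 < B := by linarith
  have e2 : B ^ d = B * B ^ (d - 1) := by
    rw [← pow_succ']; congr 1; omega
  have h7 : 1 ≤ A * (2 * C * A * (H ^ 2 / T ^ 2) * B) * B ^ (d - 1) := by
    refine h6.trans ?_
    apply mul_le_mul_of_nonneg_right _ (by positivity)
    exact mul_le_mul_of_nonneg_left h3 (by linarith)
  have e3 : A * (2 * C * A * (H ^ 2 / T ^ 2) * B) * B ^ (d - 1) =
      (2 * C * A ^ 2 * H ^ 2 * B ^ d) / T ^ 2 := by
    rw [e2]; ring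
  rw [e3, one_le_div (by positivity)] at h7
  exact h7

end Pool.Agent.Q124.UI
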