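import Mathlib
import Pool.Agent.Q124.UI.DD1

set_option autoImplicit false

/-!
# Second differences
-/

namespace Pool.Agent.Q124.UI

open Finset Pool.Agent.Q256.UI

/-- The second divided difference times the Vandermonde product. -/
def N (x y z p q r : ℝ) : ℝ := p * (y - z) + q * (z - x) + r * (x - y)

/-- Bounds for the values and for the first and the second divided differences. -/
structure DB (x y z b1 b2 p q r : ℝ) : Prop where
  p1 : |p| ≤ 1
  q1 : |q| ≤ 1
  r1 : |r| ≤ 1
  pq : |p - q| ≤ b1 * |x - y|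
  qr : |q - r| ≤ b1 * |y - z|
  rp : |r - p| ≤ b1 * |z - x|
  n : |N x y z p q r| ≤ b2 * (|x - y| * |y - z| * |z - x|)

theorem DB.mono {x y z b1 b2 c1 c2 p q r : ℝ} (h : DB x y z b1 b2 p q r) (h1 : b1 ≤ c1)
    (h2 : b2 ≤ c2) : DB x y z c1 c2 p q r where
  p1 := h.p1
  q1 := h.q1
  r1 := h.r1
  pq := h.pq.trans (mul_le_mul_of_nonneg_right h1 (abs_nonneg _))
  qr := h.qr.trans (mul_le_mul_of_nonneg_right h1 (abs_nonneg _))
  rp := h.rp.trans (mul_le_mul_of_nonneg_right h1 (abs_nonneg _))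
  n := h.n.trans (mul_le_mul_of_nonneg_right h2 (by positivity))

theorem N_mul (x y z p q r p' q' r' : ℝ) :
    N x y z (p * p') (q * q') (r * r') = p * N x y z p' q' r' +
      (p - q) * (q' - r') * (x - z) + N x y z p q r * r' := by
  unfold N; ring

theorem DB.mul {x y z b1 b2 c1 c2 p q r p' q' r' : ℝ} (hb1 : 0 ≤ b1) (hb2 : 0 ≤ b2)
    (hc1 : 0 ≤ c1) (hc2 : 0 ≤ c2)
    (h : DB x y z b1 b2 p q r) (h' : DB x y z c1 c2 p' q' r') :
    DB x y z (b1 + c1) (b2 + b1 * c1 + c2) (p * p') (q * q') (r * r') where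
  p1 := by rw [abs_mul]; exact mul_le_one₀ h.p1 (abs_nonneg _) h'.p1
  q1 := by rw [abs_mul]; exact mul_le_one₀ h.q1 (abs_nonneg _) h'.q1
  r1 := by rw [abs_mul]; exact mul_le_one₀ h.r1 (abs_nonneg _) h'.r1
  pq := by
    have := abs_mul_sub_le (q := p') (r := q) h.p1 h'.q1
    have h1 := h.pq
    have h2 := h'.pq
    linarith
  qr := by
    have := abs_mul_sub_le (q := q') (r := r) h.q1 h'.r1
    have h1 := h.qr
    have h2 := h'.qr
    linarith
  rp := by
    have := abs_mul_sub_le (q := r') (r := p) h.r1 h'.p1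
    have h1 := h.rp
    have h2 := h'.rp
    linarith
  n := by
    rw [N_mul]
    have h1 : |p * N x y z p' q' r'| ≤ c2 * (|x - y| * |y - z| * |z - x|) := by
      rw [abs_mul]
      calc |p| * |N x y z p' q' r'| ≤ 1 * (c2 * (|x - y| * |y - z| * |z - x|)) :=
            mul_le_mul h.p1 h'.n (abs_nonneg _) zero_le_one
        _ = _ := one_mul _
    have h2 : |(p - q) * (q' - r') * (x - z)| ≤ b1 * c1 * (|x - y| * |y - z| * |z - x|) := by
      rw [abs_mul, abs_mul, abs_sub_comm x z]
      calc |p - q| * |q' - r'| * |z - x| ≤ (b1 * |x - y|) * (c1 * |y - z|) * |z - x| := by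
            apply mul_le_mul_of_nonneg_right _ (abs_nonneg _)
            exact mul_le_mul h.pq h'.qr (abs_nonneg _) (by positivity)
        _ = _ := by ring
    have h3 : |N x y z p q r * r'| ≤ b2 * (|x - y| * |y - z| * |z - x|) := by
      rw [abs_mul]
      calc |N x y z p q r| * |r'| ≤ (b2 * (|x - y| * |y - z| * |z - x|)) * 1 :=
            mul_le_mul h.n h'.r1 (abs_nonneg _) (by positivity)
        _ = _ := mul_one _
    calc |p * N x y z p' q' r' + (p - q) * (q' - r') * (x - z) + N x y z p q r * r'|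
        ≤ |p * N x y z p' q' r'| + |(p - q) * (q' - r') * (x - z)| + |N x y z p q r * r'| :=
          abs_add_three _ _ _
      _ ≤ _ := by linarith

theorem DB.pow {x y z b1 b2 p q r : ℝ} (hb1 : 0 ≤ b1) (hb2 : 0 ≤ b2)
    (h : DB x y z b1 b2 p q r) (n : ℕ) :
    DB x y z (n * b1) (n * b2 + n ^ 2 * b1 ^ 2) (p ^ n) (q ^ n) (r ^ n) := by
  induction n with
  | zero =>
    constructor <;> simp [N]
  | succ n ih =>
    have := DB.mul (by positivity) (by positivity) hb1 hb2 ih h
    simp only [pow_succ]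
    refine this.mono (by push_cast; linarith) ?_
    push_cast
    have h1 : 0 ≤ (n : ℝ) * b1 ^ 2 := by positivity
    have h2 : 0 ≤ b1 ^ 2 := by positivity
    nlinarith

theorem DB.inv {T x y z : ℝ} (hT : 0 < T) (hx : T ≤ x) (hy : T ≤ y) (hz : T ≤ z) :
    DB x y z (1 / T) (1 / T ^ 2) (T / x) (T / y) (T / z) where
  p1 := inv_le hT hx
  q1 := inv_le hT hy
  r1 := inv_le hT hz
  pq := by rw [one_div_mul_eq_div]; exact inv_sub hT hx hy
  qr := by rw [one_div_mul_eq_div]; exact inv_sub hT hy hz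
  rp := by rw [one_div_mul_eq_div]; exact inv_sub hT hz hx
  n := by
    have hx0 : 0 < x := by linarith
    have hy0 : 0 < y := by linarith
    have hz0 : 0 < z := by linarith
    have e : N x y z (T / x) (T / y) (T / z) = - (T * ((x - y) * (y - z) * (z - x)) / (x * y * z)) := by
      unfold N
      field_simp
      ring
    rw [e, abs_neg, abs_div, abs_mul, abs_mul, abs_mul, abs_of_pos hT,
      abs_of_pos (by positivity : 0 < x * y * z), one_div_mul_eq_div,
      div_le_div_iff₀ (by positivity) (by positivity)]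
    have h1 : T * T * T ≤ x * y * z := by
      apply mul_le_mul (mul_le_mul hx hy hT.le hx0.le) hz hT.le (by positivity)
    have h2 : 0 ≤ |x - y| * |y - z| * |z - x| := by positivity
    nlinarith

/-- The second difference of the tail. -/
theorem S_N {d : ℕ} {A H T : ℝ} {a : ℕ → ℕ → ℝ} (hA : 1 ≤ A) (hH : 1 ≤ H) (hT : A * H ≤ T)
    (hB : Bd d A H a) {m : ℕ} (hm : 1 ≤ m) {x y z u v w b g : ℝ} (hx : T ≤ x) (hy : T ≤ y)
    (hz : T ≤ z) (hb : 0 ≤ b) (hg : 0 ≤ g)
    (h : DB x y z b g (u / (A * H)) (v / (A * H)) (w / (A * H))) :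
    |N x y z (S d a m x u) (S d a m y v) (S d a m z w)| ≤ ((d : ℝ) + 1) ^ 2 *
      (A ^ 2 * H * (A * H / T) ^ m * ((d * g + d ^ 2 * b ^ 2 + d ^ 2 * (b / T) + 2 * d ^ 2 / T ^ 2) *
        (|x - y| * |y - z| * |z - x|))) := by
  have hAH : 1 ≤ A * H := by nlinarith
  have hT0 : 0 < T := by linarith
  have hAH0 : 0 < A * H := by linarith
  have e : N x y z (S d a m x u) (S d a m y v) (S d a m z w) =
      ∑ k ∈ range (d + 1), ∑ j ∈ range (k + 1), N x y z
        (if m ≤ d - 1 + j - k then a k j * u ^ j * (1 / x) ^ (d - 1 + j - k) else 0)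
        (if m ≤ d - 1 + j - k then a k j * v ^ j * (1 / y) ^ (d - 1 + j - k) else 0)
        (if m ≤ d - 1 + j - k then a k j * w ^ j * (1 / z) ^ (d - 1 + j - k) else 0) := by
    unfold N S
    simp only [Finset.sum_mul, ← Finset.sum_add_distrib]
  rw [e]
  apply dsum (by positivity)
  intro k hk j hj
  split_ifs with hi
  · rw [term_eq hAH0.ne' hT0.ne', term_eq hAH0.ne' hT0.ne', term_eq hAH0.ne' hT0.ne']
    have e2 : ∀ c p q r : ℝ, N x y z (c * p) (c * q) (c * r) = c * N x y z p q r := by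
      intro c p q r; unfold N; ring
    rw [e2, abs_mul]
    apply mul_le_mul (coef hA hH hT hB hm hk hj hi) _ (abs_nonneg _) (by positivity)
    have h1 := DB.mul (by positivity) (by positivity) (by positivity) (by positivity)
      (DB.pow hb hg h j)
      (DB.pow (by positivity) (by positivity) (DB.inv hT0 hx hy hz) (d - 1 + j - k))
    refine h1.n.trans ?_
    apply mul_le_mul_of_nonneg_right _ (by positivity)
    have hj' : (j : ℝ) ≤ d := by exact_mod_cast hj.trans hk
    have hi' : ((d - 1 + j - k : ℕ) : ℝ) ≤ d := by exact_mod_cast (by omega : d - 1 + j - k ≤ d)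
    have hi1 : (1 : ℝ) ≤ ((d - 1 + j - k : ℕ) : ℝ) := by
      exact_mod_cast (by omega : 1 ≤ d - 1 + j - k)
    obtain ⟨i, hie⟩ : ∃ i : ℝ, i = ((d - 1 + j - k : ℕ) : ℝ) := ⟨_, rfl⟩
    rw [← hie] at hi' hi1 ⊢
    have t1 : (j : ℝ) * g ≤ d * g := mul_le_mul_of_nonneg_right hj' hg
    have t2 : (j : ℝ) ^ 2 * b ^ 2 ≤ d ^ 2 * b ^ 2 :=
      mul_le_mul_of_nonneg_right (pow_le_pow_left₀ (by positivity) hj' 2) (by positivity)
    have t3 : (j : ℝ) * b * (i * (1 / T)) ≤ d ^ 2 * (b / T) := by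
      calc (j : ℝ) * b * (i * (1 / T)) = (j * i) * (b / T) := by ring
        _ ≤ (d * d) * (b / T) := by
          apply mul_le_mul_of_nonneg_right _ (by positivity)
          exact mul_le_mul hj' hi' (by linarith) (by positivity)
        _ = _ := by ring
    have t4 : i * (1 / T ^ 2) + i ^ 2 * (1 / T) ^ 2 ≤ 2 * d ^ 2 / T ^ 2 := by
      have e4 : i * (1 / T ^ 2) + i ^ 2 * (1 / T) ^ 2 = (i + i ^ 2) / T ^ 2 := by
        field_simp
      rw [e4]
      apply div_le_div_of_nonneg_right _ (by positivity)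
      nlinarith
    linarith
  · unfold N
    simp only [zero_mul, add_zero, abs_zero]
    positivity

end Pool.Agent.Q124.UI
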