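import Mathlib
import Pool.Agent.Q124.UI.Two
import Pool.Agent.Q124.UI.SPC

set_option autoImplicit false

/-!
# DD2 (second differences)
-/

namespace Pool.Agent.Q124.UI

open Finset Pool.Agent.Q256.UI

theorem fd {A H T C w x y u v : ℝ} (hA : 1 ≤ A) (hH : 1 ≤ H) (hT : 0 < T) (hC : 1 ≤ C)
    (hw : w ≤ A * H / T ^ 2) (hxy : 1 ≤ |x - y|)
    (h : |u - v| ≤ C * (H ^ 2 / T ^ 2 * |x - y| + w)) :
    |u / (A * H) - v / (A * H)| ≤ (2 * C * H / T ^ 2) * |x - y| := by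
  have hAH0 : 0 < A * H := by nlinarith
  have e : u / (A * H) - v / (A * H) = (u - v) / (A * H) := by rw [sub_div]
  rw [e, abs_div, abs_of_pos hAH0, div_le_iff₀ hAH0]
  refine h.trans ?_
  have h1 : H ^ 2 / T ^ 2 * |x - y| ≤ A * (H ^ 2 / T ^ 2 * |x - y|) := by
    have : 0 ≤ H ^ 2 / T ^ 2 * |x - y| := by positivity
    nlinarith
  have h2 : A * H / T ^ 2 ≤ A * (H ^ 2 / T ^ 2 * |x - y|) := by
    have h3 : A * H / T ^ 2 ≤ A * (H ^ 2 / T ^ 2) := by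
      rw [← mul_div_assoc]
      apply div_le_div_of_nonneg_right _ (by positivity)
      apply mul_le_mul_of_nonneg_left _ (by linarith)
      nlinarith
    have h4 : 0 ≤ A * (H ^ 2 / T ^ 2) := by positivity
    nlinarith
  calc C * (H ^ 2 / T ^ 2 * |x - y| + w) ≤
      C * (A * (H ^ 2 / T ^ 2 * |x - y|) + A * (H ^ 2 / T ^ 2 * |x - y|)) :=
        mul_le_mul_of_nonneg_left (by linarith) (by linarith)
    _ = _ := by ring

/-- The error part of the second difference. -/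
theorem E_le {d : ℕ} {C H T : ℝ} (hC : 1 ≤ C) (hH : 1 ≤ H) (hHT : H ≤ T) :
    (d : ℝ) ^ 2 * (2 * C * H / T ^ 2) ^ 2 + d ^ 2 * ((2 * C * H / T ^ 2) / T) + 2 * d ^ 2 / T ^ 2 ≤
      d ^ 2 * (4 * C ^ 2 + 2 * C + 2) / T ^ 2 := by
  have hT : 0 < T := by linarith
  have h1 : (2 * C * H / T ^ 2) ^ 2 ≤ 4 * C ^ 2 / T ^ 2 := by
    have : (2 * C * H / T ^ 2) ^ 2 = 4 * C ^ 2 * H ^ 2 / T ^ 2 / T ^ 2 := by
      field_simp; ring
    rw [this]
    apply div_le_div_of_nonneg_right _ (by positivity)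
    rw [div_le_iff₀ (by positivity)]
    apply mul_le_mul_of_nonneg_left (pow_le_pow_left₀ (by linarith) hHT 2) (by positivity)
  have h2 : (2 * C * H / T ^ 2) / T ≤ 2 * C / T ^ 2 := by
    rw [div_div, div_le_div_iff₀ (by positivity) (by positivity)]
    have : 2 * C * H * T ^ 2 ≤ 2 * C * T * T ^ 2 := by gcongr
    nlinarith
  have h3 : (d : ℝ) ^ 2 * (2 * C * H / T ^ 2) ^ 2 ≤ d ^ 2 * (4 * C ^ 2 / T ^ 2) :=
    mul_le_mul_of_nonneg_left h1 (by positivity)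
  have h4 : (d : ℝ) ^ 2 * ((2 * C * H / T ^ 2) / T) ≤ d ^ 2 * (2 * C / T ^ 2) :=
    mul_le_mul_of_nonneg_left h2 (by positivity)
  have e : (d : ℝ) ^ 2 * (4 * C ^ 2 + 2 * C + 2) / T ^ 2 = d ^ 2 * (4 * C ^ 2 / T ^ 2) +
      d ^ 2 * (2 * C / T ^ 2) + 2 * d ^ 2 / T ^ 2 := by ring
  linarith

theorem N_le {x y z p q r w : ℝ} (hp : |p| ≤ w) (hq : |q| ≤ w) (hr : |r| ≤ w) :
    |N x y z p q r| ≤ w * (|x - y| + |y - z| + |z - x|) := by
  unfold N
  calc |p * (y - z) + q * (z - x) + r * (x - y)| ≤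
      |p * (y - z)| + |q * (z - x)| + |r * (x - y)| := abs_add_three _ _ _
    _ = |p| * |y - z| + |q| * |z - x| + |r| * |x - y| := by rw [abs_mul, abs_mul, abs_mul]
    _ ≤ w * |y - z| + w * |z - x| + w * |x - y| := by gcongr
    _ = _ := by ring

theorem dd2 : S_DD1 → S_DD2 := by
  intro h1 d A hd hA
  obtain ⟨C, hC, h⟩ := h1 d A hd hA
  have hd0 : (5 : ℝ) ≤ d := by exact_mod_cast hd
  obtain ⟨n, hn⟩ : ∃ n : ℝ, n = ((d : ℝ) + 1) ^ 2 := ⟨_, rfl⟩
  have hn1 : 1 ≤ n := by rw [hn]; nlinarith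
  obtain ⟨G, hG⟩ : ∃ G : ℝ, G = d ^ 2 * (4 * C ^ 2 + 2 * C + 2) := ⟨_, rfl⟩
  have hG0 : 0 ≤ G := by rw [hG]; positivity
  have hnd : 0 ≤ n * d * A ^ 3 := by positivity
  have hnG : 0 ≤ n * A ^ 4 * G := by positivity
  refine ⟨C + A + 2 * (n * d * A ^ 3) + 2 * A + 2 * (n * A ^ 4 * G), by linarith, ?_⟩
  intro H T W a hH hT hB hW hW2 x y z u v w hx hx2 hy hy2 hz hz2 hxy hyz hzx hu hv hw hQ1 hQ2 hQ3
  have hH0 : 0 < H := by linarith
  have hCH : C * H ≤ T := by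
    refine le_trans ?_ hT
    exact mul_le_mul_of_nonneg_right (by linarith) hH0.le
  have hAT : A * H ≤ T := by
    refine le_trans ?_ hT
    exact mul_le_mul_of_nonneg_right (by linarith) hH0.le
  have hnT : 2 * (n * d * A ^ 3) * H ≤ T := by
    refine le_trans ?_ hT
    exact mul_le_mul_of_nonneg_right (by linarith) hH0.le
  have hHT : H ≤ T := by nlinarith
  have hT0 : 0 < T := by linarith
  have hAH0 : 0 < A * H := by positivity
  have hws := W_le (by omega : 3 ≤ d) hT0 hW2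
  have f1 := fd hA hH hT0 hC hws hxy (h H T W a hH hCH hB hW x y u v hx hx2 hy hy2 hu hv hQ1 hQ2)
  have f2 := fd hA hH hT0 hC hws hyz (h H T W a hH hCH hB hW y z v w hy hy2 hz hz2 hv hw hQ2 hQ3)
  have f3 := fd hA hH hT0 hC hws hzx (h H T W a hH hCH hB hW z x w u hz hz2 hx hx2 hw hu hQ3 hQ1)
  obtain ⟨V, hV⟩ : ∃ V : ℝ, V = |x - y| * |y - z| * |z - x| := ⟨_, rfl⟩
  have hV0 : 0 < V := by rw [hV]; positivity
  have eN : N x y z (u / (A * H)) (v / (A * H)) (w / (A * H)) = N x y z u v w / (A * H) := by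
    unfold N; field_simp
  have hDB : DB x y z (2 * C * H / T ^ 2) (|N x y z u v w| / (A * H) / V)
      (u / (A * H)) (v / (A * H)) (w / (A * H)) := by
    refine ⟨scl_le hAH0 hu, scl_le hAH0 hv, scl_le hAH0 hw, f1, f2, f3, ?_⟩
    rw [eN, abs_div, abs_of_pos hAH0, ← hV, div_mul_cancel₀ _ hV0.ne']
  have hS := S_N hA hH hAT hB (le_refl 1) hx hy hz (by positivity) (by positivity) hDB
  rw [← hn, ← hV] at hS
  have hE := E_le (d := d) hC hH hHT
  rw [← hG] at hE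
  have e1 := Q_eq (by omega : 2 ≤ d) hB.zero (by linarith : x ≠ 0) u
  have e2 := Q_eq (by omega : 2 ≤ d) hB.zero (by linarith : y ≠ 0) v
  have e3 := Q_eq (by omega : 2 ≤ d) hB.zero (by linarith : z ≠ 0) w
  have hNe := N_le (x := x) (y := y) (z := z) (eps_le hT0 hx hW hQ1) (eps_le hT0 hy hW hQ2)
    (eps_le hT0 hz hW hQ3)
  have h2 : a d 1 * N x y z u v w = N x y z (Q d a x u / x ^ (d - 1)) (Q d a y v / y ^ (d - 1))
      (Q d a z w / z ^ (d - 1)) - N x y z (S d a 1 x u) (S d a 1 y v) (S d a 1 z w) := by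
    rw [e1, e2, e3]; unfold N; ring
  have h3 : |a d 1| * |N x y z u v w| ≤ W / T ^ (d - 1) * (|x - y| + |y - z| + |z - x|) +
      n * (A ^ 2 * H * (A * H / T) ^ 1 *
      ((d * (|N x y z u v w| / (A * H) / V) + d ^ 2 * (2 * C * H / T ^ 2) ^ 2 +
        d ^ 2 * ((2 * C * H / T ^ 2) / T) + 2 * d ^ 2 / T ^ 2) * V)) := by
    rw [← abs_mul, h2]
    exact (abs_sub _ _).trans (add_le_add hNe hS)
  have e4 : N x y z u v w = u * (y - z) + v * (z - x) + w * (x - y) := rfl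
  rw [← e4, ← hV]
  obtain ⟨M, hM⟩ : ∃ M : ℝ, M = |N x y z u v w| := ⟨_, rfl⟩
  have hM0 : 0 ≤ M := by rw [hM]; positivity
  rw [← hM] at h3 ⊢
  have hs0 : 0 ≤ W / T ^ (d - 1) * (|x - y| + |y - z| + |z - x|) := by positivity
  generalize W / T ^ (d - 1) * (|x - y| + |y - z| + |z - x|) = s at h3 hs0 ⊢
  have h4 : M ≤ A * (|a d 1| * M) := by
    rw [← mul_assoc]
    have := hB.one
    nlinarith
  have h5 : n * (A ^ 2 * H * (A * H / T) ^ 1 *
      ((d * (M / (A * H) / V) + d ^ 2 * (2 * C * H / T ^ 2) ^ 2 +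
        d ^ 2 * ((2 * C * H / T ^ 2) / T) + 2 * d ^ 2 / T ^ 2) * V)) ≤
      n * (A ^ 2 * H * (A * H / T) ^ 1 * ((d * (M / (A * H) / V) + G / T ^ 2) * V)) := by
    have : d * (M / (A * H) / V) + d ^ 2 * (2 * C * H / T ^ 2) ^ 2 +
        d ^ 2 * ((2 * C * H / T ^ 2) / T) + 2 * d ^ 2 / T ^ 2 ≤
        d * (M / (A * H) / V) + G / T ^ 2 := by linarith
    exact mul_le_mul_of_nonneg_left (mul_le_mul_of_nonneg_left
      (mul_le_mul_of_nonneg_right this hV0.le) (by positivity)) (by linarith)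
  have e5 : n * (A ^ 2 * H * (A * H / T) ^ 1 * ((d * (M / (A * H) / V) + G / T ^ 2) * V)) =
      n * d * A ^ 2 * (H / T) * M + n * A ^ 3 * G * (H ^ 2 / T ^ 3 * V) := by
    field_simp
  rw [e5] at h5
  have h6 : A * (n * d * A ^ 2 * (H / T) * M) ≤ 1 / 2 * M := by
    have e6 : A * (n * d * A ^ 2 * (H / T) * M) = ((n * d * A ^ 3) * H / T) * M := by ring
    rw [e6]
    apply mul_le_mul_of_nonneg_right _ hM0
    rw [div_le_iff₀ hT0]
    linarith
  have h7 : M ≤ A * s + A * (n * d * A ^ 2 * (H / T) * M) +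
      A * (n * A ^ 3 * G * (H ^ 2 / T ^ 3 * V)) := by
    calc M ≤ A * (|a d 1| * M) := h4
      _ ≤ A * (s + (n * d * A ^ 2 * (H / T) * M + n * A ^ 3 * G * (H ^ 2 / T ^ 3 * V))) :=
        mul_le_mul_of_nonneg_left (h3.trans (by linarith)) (by linarith)
      _ = _ := by ring
  have hr0 : 0 ≤ H ^ 2 / T ^ 3 * V := by positivity
  generalize H ^ 2 / T ^ 3 * V = r at h7 hr0 ⊢
  have e8 : A * (n * A ^ 3 * G * r) = n * A ^ 4 * G * r := by ring
  rw [e8] at h7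
  have h8 : M ≤ 2 * A * s + 2 * (n * A ^ 4 * G * r) := by linarith
  have p1 : 0 ≤ n * d * A ^ 3 * r := by positivity
  have p2 : 0 ≤ n * d * A ^ 3 * s := by positivity
  have p3 : 0 ≤ n * A ^ 4 * G * s := by positivity
  have p4 : 0 ≤ C * r := by positivity
  have p5 : 0 ≤ C * s := by positivity
  have p6 : 0 ≤ A * r := by positivity
  have p7 : 0 ≤ A * s := by positivity
  have e9 : (C + A + 2 * (n * d * A ^ 3) + 2 * A + 2 * (n * A ^ 4 * G)) * (r + s) =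
      C * r + C * s + 3 * (A * r) + 3 * (A * s) + 2 * (n * d * A ^ 3 * r) +
      2 * (n * d * A ^ 3 * s) + 2 * (n * A ^ 4 * G * r) + 2 * (n * A ^ 4 * G * s) := by ring
  rw [e9]
  linarith

end Pool.Agent.Q124.UI
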