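import Mathlib
import Pool.Agent.Q124.UI.DD2

set_option autoImplicit false

/-!
# DD3 (three collinear points)
-/

namespace Pool.Agent.Q124.UI

open Finset Pool.Agent.Q256.UI

/-- The quadratic polynomial whose value at `kap` is `rho`. -/
noncomputable def qq (d : ℕ) (a : ℕ → ℕ → ℝ) (u : ℝ) : ℝ :=
  a d 2 * u ^ 2 + a (d - 1) 1 * u + a (d - 2) 0

theorem qq_sub {d : ℕ} (hd : 3 ≤ d) {A H K : ℝ} {a : ℕ → ℕ → ℝ} (hA : 1 ≤ A) (hH : 1 ≤ H)
    (hB : Bd d A H a) {u v : ℝ} (huv : |u + v| ≤ K * H) (hK : 0 ≤ K) :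
    |qq d a u - qq d a v| ≤ A * (K + 1) * H * |u - v| := by
  have e : qq d a u - qq d a v = (a d 2 * (u + v) + a (d - 1) 1) * (u - v) := by
    unfold qq; ring
  rw [e, abs_mul]
  apply mul_le_mul_of_nonneg_right _ (abs_nonneg _)
  have h1 := hB.top 2 (by omega)
  have h2 := hB.low (d - 1) 1 (by omega) (by omega)
  calc |a d 2 * (u + v) + a (d - 1) 1| ≤ |a d 2 * (u + v)| + |a (d - 1) 1| := abs_add_le _ _
    _ ≤ A * (K * H) + A * H := by
        rw [abs_mul]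
        exact add_le_add (mul_le_mul h1 huv (abs_nonneg _) (by linarith)) h2
    _ = _ := by ring

theorem u_kap {d : ℕ} (hd : 5 ≤ d) {A H T W : ℝ} {a : ℕ → ℕ → ℝ} (hA : 1 ≤ A) (hH : 1 ≤ H)
    (hT : A * H ≤ T) (hB : Bd d A H a) (hW : 0 ≤ W) (hW2 : W ≤ A * H * T ^ (d - 3))
    {x u : ℝ} (hx : T ≤ x) (hu : |u| ≤ A * H) (hQ : |Q d a x u| ≤ W) :
    |u - kap d a| ≤ (A ^ 2 + ((d : ℝ) + 1) ^ 2 * A ^ 4) * (H ^ 2 / T) := by
  have hAH : 1 ≤ A * H := by nlinarith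
  have hT0 : 0 < T := by linarith
  have hHT : H ≤ T := by nlinarith
  have h1 : a d 1 ≠ 0 := by
    intro h
    have := hB.one
    rw [h, abs_zero, mul_zero] at this
    linarith
  have h2 : a d 1 * kap d a = - a (d - 1) 0 := by
    unfold kap; field_simp
  have e := Q_eq (by omega : 2 ≤ d) hB.zero (by linarith : x ≠ 0) u
  have h3 : a d 1 * (u - kap d a) = Q d a x u / x ^ (d - 1) - S d a 1 x u := by
    rw [e, mul_sub, h2]; ring
  have b1 := (eps_le hT0 hx hW hQ).trans (W_le (by omega : 3 ≤ d) hT0 hW2)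
  have b2 := S_bd hA hH hT hB (le_refl 1) hx hu
  have h4 : |a d 1| * |u - kap d a| ≤ A * H / T ^ 2 +
      ((d : ℝ) + 1) ^ 2 * (A ^ 2 * H * (A * H / T) ^ 1) := by
    rw [← abs_mul, h3]
    exact (abs_sub _ _).trans (add_le_add b1 b2)
  have h5 : A * H / T ^ 2 ≤ A * (H ^ 2 / T) := by
    rw [← mul_div_assoc, div_le_div_iff₀ (by positivity) hT0]
    have : A * H * T ≤ A * H ^ 2 * T := by
      apply mul_le_mul_of_nonneg_right _ hT0.le
      apply mul_le_mul_of_nonneg_left _ (by linarith)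
      nlinarith
    have h6 : A * H ^ 2 * T ≤ A * H ^ 2 * T ^ 2 := by
      apply mul_le_mul_of_nonneg_left _ (by positivity)
      nlinarith
    linarith
  calc |u - kap d a| ≤ A * (|a d 1| * |u - kap d a|) := by
        rw [← mul_assoc]
        nlinarith [hB.one, abs_nonneg (u - kap d a)]
    _ ≤ A * (A * (H ^ 2 / T) + ((d : ℝ) + 1) ^ 2 * (A ^ 2 * H * (A * H / T) ^ 1)) :=
        mul_le_mul_of_nonneg_left (h4.trans (by linarith)) (by linarith)
    _ = _ := by field_simp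

theorem kap_le {d : ℕ} (hd : 5 ≤ d) {A H : ℝ} {a : ℕ → ℕ → ℝ} (hA : 1 ≤ A)
    (hB : Bd d A H a) : |kap d a| ≤ A ^ 2 * H := by
  have h1 := hB.one
  have h2 := hB.low (d - 1) 0 (by omega) (by omega)
  have h3 : 0 < |a d 1| := by
    by_contra h
    have : |a d 1| = 0 := le_antisymm (not_lt.1 h) (abs_nonneg _)
    rw [this, mul_zero] at h1
    linarith
  unfold kap
  rw [abs_div, abs_neg, div_le_iff₀ h3]
  have h4 : 0 ≤ A * H := (abs_nonneg _).trans h2
  calc |a (d - 1) 0| ≤ A * H := h2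
    _ ≤ (A * H) * (A * |a d 1|) := le_mul_of_one_le_right h4 h1
    _ = _ := by ring

theorem prod3 {a b c p : ℝ} (hp : 0 ≤ p) (hb : p ≤ b) (hc : p ≤ c) (ha : 0 ≤ a) :
    a * p ^ 2 ≤ a * b * c := by
  rw [mul_assoc]
  apply mul_le_mul_of_nonneg_left _ ha
  rw [pow_two]
  exact mul_le_mul hb hc hp (hp.trans hb)

theorem qq_bd {d : ℕ} (hd : 5 ≤ d) {A H T W C b : ℝ} {a : ℕ → ℕ → ℝ} (hA : 1 ≤ A) (hH : 1 ≤ H)
    (hC : 1 ≤ C) (hT : A * H ≤ T) (hB : Bd d A H a) (hW : 0 ≤ W) (hb : 1 ≤ b)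
    {x y z u v w : ℝ} (hx : T ≤ x) (hx2 : x ≤ 2 * T) (hy : T ≤ y) (hy2 : y ≤ 2 * T) (hz : T ≤ z)
    (hz2 : z ≤ 2 * T)
    (hxy : b ≤ |x - y|) (hyz : b ≤ |y - z|) (hzx : b ≤ |z - x|)
    (hu : |u| ≤ A * H) (hv : |v| ≤ A * H) (hw : |w| ≤ A * H)
    (hQ1 : |Q d a x u| ≤ W) (hQ2 : |Q d a y v| ≤ W) (hQ3 : |Q d a z w| ≤ W)
    (f1 : |u / (A * H) - v / (A * H)| ≤ (2 * C * H / T ^ 2) * |x - y|)
    (f2 : |v / (A * H) - w / (A * H)| ≤ (2 * C * H / T ^ 2) * |y - z|)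
    (f3 : |w / (A * H) - u / (A * H)| ≤ (2 * C * H / T ^ 2) * |z - x|)
    (h0 : N x y z u v w = 0) :
    |qq d a u| ≤ 24 * (W / T ^ (d - 1) * T ^ 3 / b ^ 2) +
      8 * (((d : ℝ) + 1) ^ 2 * A ^ 4 * (d ^ 2 * (4 * C ^ 2 + 2 * C + 2)) + 6 * A ^ 3 * C +
        4 * A ^ 3 * C ^ 2) * (H ^ 3 / T) := by
  have hAH : 1 ≤ A * H := by nlinarith
  have hAH0 : 0 < A * H := by linarith
  have hT0 : 0 < T := by linarith
  have hHT : H ≤ T := by nlinarith
  have hx0 : 0 < x := by linarith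
  have hy0 : 0 < y := by linarith
  have hz0 : 0 < z := by linarith
  have hb0 : 0 < b := by linarith
  obtain ⟨V, hV⟩ : ∃ V : ℝ, V = |x - y| * |y - z| * |z - x| := ⟨_, rfl⟩
  have pxy : 0 < |x - y| := by linarith
  have pyz : 0 < |y - z| := by linarith
  have pzx : 0 < |z - x| := by linarith
  have hV0 : 0 < V := by rw [hV]; positivity
  have eN : N x y z (u / (A * H)) (v / (A * H)) (w / (A * H)) = N x y z u v w / (A * H) := by
    unfold N; field_simp
  have hDB : DB x y z (2 * C * H / T ^ 2) 0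
      (u / (A * H)) (v / (A * H)) (w / (A * H)) := by
    refine ⟨scl_le hAH0 hu, scl_le hAH0 hv, scl_le hAH0 hw, f1, f2, f3, ?_⟩
    rw [eN, h0, zero_div, abs_zero, zero_mul]
  have hS := S_N hA hH hT hB (by norm_num : 1 ≤ 2) hx hy hz (by positivity) (le_refl 0) hDB
  rw [← hV] at hS
  have hE := E_le (d := d) hC hH hHT
  obtain ⟨G, hG⟩ : ∃ G : ℝ, G = d ^ 2 * (4 * C ^ 2 + 2 * C + 2) := ⟨_, rfl⟩
  obtain ⟨n, hn⟩ : ∃ n : ℝ, n = ((d : ℝ) + 1) ^ 2 := ⟨_, rfl⟩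
  have hG0 : 0 ≤ G := by rw [hG]; positivity
  have hn0 : 0 ≤ n := by rw [hn]; positivity
  rw [← hG] at hE ⊢
  rw [← hn] at hS ⊢
  have hS2 : |N x y z (S d a 2 x u) (S d a 2 y v) (S d a 2 z w)| ≤
      n * A ^ 4 * G * (H ^ 3 / T ^ 4) * V := by
    refine hS.trans ?_
    have : d * 0 + d ^ 2 * (2 * C * H / T ^ 2) ^ 2 +
        d ^ 2 * ((2 * C * H / T ^ 2) / T) + 2 * d ^ 2 / T ^ 2 ≤ G / T ^ 2 := by linarith
    calc n * (A ^ 2 * H * (A * H / T) ^ 2 * ((d * 0 + d ^ 2 * (2 * C * H / T ^ 2) ^ 2 +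
        d ^ 2 * ((2 * C * H / T ^ 2) / T) + 2 * d ^ 2 / T ^ 2) * V)) ≤
        n * (A ^ 2 * H * (A * H / T) ^ 2 * (G / T ^ 2 * V)) :=
          mul_le_mul_of_nonneg_left (mul_le_mul_of_nonneg_left
            (mul_le_mul_of_nonneg_right this hV0.le) (by positivity)) hn0
      _ = _ := by field_simp
  have e1 := Q_eq (by omega : 2 ≤ d) hB.zero hx0.ne' u
  have e2 := Q_eq (by omega : 2 ≤ d) hB.zero hy0.ne' v
  have e3 := Q_eq (by omega : 2 ≤ d) hB.zero hz0.ne' w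
  rw [S_one (by omega : 3 ≤ d)] at e1 e2 e3
  have hNe := N_le (x := x) (y := y) (z := z) (eps_le hT0 hx hW hQ1) (eps_le hT0 hy hW hQ2)
    (eps_le hT0 hz hW hQ3)
  have h2 : N x y z (qq d a u * (1 / x)) (qq d a v * (1 / y)) (qq d a w * (1 / z)) =
      N x y z (Q d a x u / x ^ (d - 1)) (Q d a y v / y ^ (d - 1))
      (Q d a z w / z ^ (d - 1)) - N x y z (S d a 2 x u) (S d a 2 y v) (S d a 2 z w) := by
    have h3 : a d 1 * N x y z u v w = 0 := by rw [h0, mul_zero]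
    rw [e1, e2, e3]
    unfold qq
    unfold N at h3 ⊢
    linear_combination - h3
  rw [N_mul] at h2
  have h3 : N x y z (1 / x) (1 / y) (1 / z) = - ((x - y) * (y - z) * (z - x) / (x * y * z)) := by
    unfold N; field_simp; ring
  have d1 : |u - v| ≤ 2 * A * C * (H ^ 2 / T ^ 2) * |x - y| := by
    rw [← sub_div, abs_div, abs_of_pos hAH0, div_le_iff₀ hAH0] at f1
    refine f1.trans (le_of_eq ?_); ring
  have d2 : |v - w| ≤ 2 * A * C * (H ^ 2 / T ^ 2) * |y - z| := by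
    rw [← sub_div, abs_div, abs_of_pos hAH0, div_le_iff₀ hAH0] at f2
    refine f2.trans (le_of_eq ?_); ring
  have t1 : |(qq d a u - qq d a v) * (1 / y - 1 / z) * (x - z)| ≤
      6 * A ^ 3 * C * (H ^ 3 / T ^ 4) * V := by
    rw [abs_mul, abs_mul, abs_sub_comm x z]
    have s1 : |qq d a u - qq d a v| ≤ 6 * A ^ 3 * C * (H ^ 3 / T ^ 2) * |x - y| := by
      have hk : |u + v| ≤ (2 * A) * H := (abs_add_le u v).trans (by linarith)
      refine (qq_sub (by omega) hA hH hB hk (by linarith)).trans ?_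
      calc A * (2 * A + 1) * H * |u - v| ≤ (3 * A ^ 2 * H) * (2 * A * C * (H ^ 2 / T ^ 2) * |x - y|) := by
            apply mul_le_mul _ d1 (abs_nonneg _) (by positivity)
            apply mul_le_mul_of_nonneg_right _ (by linarith)
            nlinarith
        _ = _ := by ring
    have s2 : |1 / y - 1 / z| ≤ 1 / T ^ 2 * |y - z| := by
      have e5 : 1 / y - 1 / z = (z - y) / (y * z) := by field_simp
      rw [e5, abs_div, abs_of_pos (mul_pos hy0 hz0), abs_sub_comm, one_div_mul_eq_div]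
      apply div_le_div_of_nonneg_left pyz.le (by positivity)
      rw [pow_two]
      exact mul_le_mul hy hz hT0.le hy0.le
    calc |qq d a u - qq d a v| * |1 / y - 1 / z| * |z - x| ≤
        (6 * A ^ 3 * C * (H ^ 3 / T ^ 2) * |x - y|) * (1 / T ^ 2 * |y - z|) * |z - x| := by
          apply mul_le_mul_of_nonneg_right _ pzx.le
          exact mul_le_mul s1 s2 (abs_nonneg _) (by positivity)
      _ = _ := by rw [hV]; field_simp
  have t2 : |N x y z (qq d a u) (qq d a v) (qq d a w) * (1 / z)| ≤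
      4 * A ^ 3 * C ^ 2 * (H ^ 3 / T ^ 4) * V := by
    have s1 : N x y z (qq d a u) (qq d a v) (qq d a w) = a d 2 * ((u - v) * (v - w) * (x - z)) := by
      unfold qq
      unfold N at h0 ⊢
      linear_combination (a d 2 * (u + w) + a (d - 1) 1) * h0
    have s2 : |N x y z (qq d a u) (qq d a v) (qq d a w)| ≤ 4 * A ^ 3 * C ^ 2 * (H ^ 4 / T ^ 4) * V := by
      rw [s1, abs_mul, abs_mul, abs_mul, abs_sub_comm x z]
      calc |a d 2| * (|u - v| * |v - w| * |z - x|) ≤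
          A * ((2 * A * C * (H ^ 2 / T ^ 2) * |x - y|) * (2 * A * C * (H ^ 2 / T ^ 2) * |y - z|) *
            |z - x|) := by
            apply mul_le_mul (hB.top 2 (by omega)) _ (by positivity) (by linarith)
            apply mul_le_mul_of_nonneg_right _ pzx.le
            exact mul_le_mul d1 d2 (abs_nonneg _) (by positivity)
        _ = _ := by rw [hV]; ring
    rw [abs_mul]
    have s3 : |1 / z| ≤ 1 / T := by
      rw [abs_of_pos (by positivity)]
      exact one_div_le_one_div_of_le hT0 hz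
    calc |N x y z (qq d a u) (qq d a v) (qq d a w)| * |1 / z| ≤
        (4 * A ^ 3 * C ^ 2 * (H ^ 4 / T ^ 4) * V) * (1 / T) :=
          mul_le_mul s2 s3 (abs_nonneg _) (by positivity)
      _ = (4 * A ^ 3 * C ^ 2 * (H ^ 3 / T ^ 4) * V) * (H / T) := by ring
      _ ≤ (4 * A ^ 3 * C ^ 2 * (H ^ 3 / T ^ 4) * V) * 1 := by
          apply mul_le_mul_of_nonneg_left _ (by positivity)
          rw [div_le_one hT0]; exact hHT
      _ = _ := mul_one _
  have t3 : W / T ^ (d - 1) * (|x - y| + |y - z| + |z - x|) ≤ 3 * (W / T ^ (d - 1) / b ^ 2) * V := by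
    have w0 : 0 ≤ W / T ^ (d - 1) := by positivity
    have r1 : |x - y| ≤ V / b ^ 2 := by
      rw [le_div_iff₀ (by positivity), hV]
      exact prod3 hb0.le hyz hzx pxy.le
    have r2 : |y - z| ≤ V / b ^ 2 := by
      rw [le_div_iff₀ (by positivity), hV]
      have := prod3 hb0.le hxy hzx pyz.le
      linarith
    have r3 : |z - x| ≤ V / b ^ 2 := by
      rw [le_div_iff₀ (by positivity), hV]
      have := prod3 hb0.le hxy hyz pzx.le
      linarith
    calc W / T ^ (d - 1) * (|x - y| + |y - z| + |z - x|) ≤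
        W / T ^ (d - 1) * (V / b ^ 2 + V / b ^ 2 + V / b ^ 2) :=
          mul_le_mul_of_nonneg_left (by linarith) w0
      _ = _ := by ring
  have t4 : |qq d a u * N x y z (1 / x) (1 / y) (1 / z)| ≤
      3 * (W / T ^ (d - 1) / b ^ 2) * V + n * A ^ 4 * G * (H ^ 3 / T ^ 4) * V +
      6 * A ^ 3 * C * (H ^ 3 / T ^ 4) * V + 4 * A ^ 3 * C ^ 2 * (H ^ 3 / T ^ 4) * V := by
    have e6 : qq d a u * N x y z (1 / x) (1 / y) (1 / z) =
        N x y z (Q d a x u / x ^ (d - 1)) (Q d a y v / y ^ (d - 1))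
          (Q d a z w / z ^ (d - 1)) - N x y z (S d a 2 x u) (S d a 2 y v) (S d a 2 z w) -
        (qq d a u - qq d a v) * (1 / y - 1 / z) * (x - z) -
        N x y z (qq d a u) (qq d a v) (qq d a w) * (1 / z) := by linear_combination h2
    rw [e6]
    refine (abs_sub _ _).trans ?_
    refine add_le_add ((abs_sub _ _).trans ?_) t2
    refine add_le_add ((abs_sub _ _).trans ?_) t1
    exact add_le_add (hNe.trans t3) hS2
  have t5 : |qq d a u| * (V / (8 * T ^ 3)) ≤ |qq d a u * N x y z (1 / x) (1 / y) (1 / z)| := by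
    rw [abs_mul, h3, abs_neg, abs_div, abs_mul, abs_mul, ← hV,
      abs_of_pos (by positivity : 0 < x * y * z)]
    apply mul_le_mul_of_nonneg_left _ (abs_nonneg _)
    apply div_le_div_of_nonneg_left hV0.le (by positivity)
    calc x * y * z ≤ (2 * T) * (2 * T) * (2 * T) := by gcongr
      _ = 8 * T ^ 3 := by ring
  have t6 := t5.trans t4
  have t7 : |qq d a u| * (V / (8 * T ^ 3)) ≤ (24 * (W / T ^ (d - 1) * T ^ 3 / b ^ 2) +
      8 * (n * A ^ 4 * G + 6 * A ^ 3 * C + 4 * A ^ 3 * C ^ 2) * (H ^ 3 / T)) * (V / (8 * T ^ 3)) := by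
    refine t6.trans (le_of_eq ?_)
    generalize W / T ^ (d - 1) = ω
    field_simp
    ring
  exact le_of_mul_le_mul_right t7 (by positivity)

theorem dd3 : S_DD1 → S_DD3 := by
  intro h1 d A hd hA
  obtain ⟨C, hC, h⟩ := h1 d A hd hA
  obtain ⟨K, hK⟩ : ∃ K : ℝ, K = 8 * (((d : ℝ) + 1) ^ 2 * A ^ 4 * (d ^ 2 * (4 * C ^ 2 + 2 * C + 2)) +
    6 * A ^ 3 * C + 4 * A ^ 3 * C ^ 2) := ⟨_, rfl⟩
  have hK0 : 0 ≤ K := by rw [hK]; positivity
  obtain ⟨L, hL⟩ : ∃ L : ℝ, L = A * ((A + A ^ 2) + 1) * (A ^ 2 + ((d : ℝ) + 1) ^ 2 * A ^ 4) := ⟨_, rfl⟩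
  have hL0 : 0 ≤ L := by rw [hL]; positivity
  refine ⟨C + A + 24 + K + L, by linarith, ?_⟩
  intro H T W b a hH hT hB hW hW2 hb x y z u v w hx hx2 hy hy2 hz hz2 hxy hyz hzx hu hv hw hQ1 hQ2
    hQ3 hdet
  have hH0 : 0 < H := by linarith
  have hCH : C * H ≤ T := by
    refine le_trans ?_ hT
    exact mul_le_mul_of_nonneg_right (by linarith) hH0.le
  have hAT : A * H ≤ T := by
    refine le_trans ?_ hT
    exact mul_le_mul_of_nonneg_right (by linarith) hH0.le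
  have hAH : 1 ≤ A * H := by nlinarith
  have hT0 : 0 < T := by linarith
  have hws := W_le (by omega : 3 ≤ d) hT0 hW2
  have f1 := fd hA hH hT0 hC hws (hb.trans hxy)
    (h H T W a hH hCH hB hW x y u v hx hx2 hy hy2 hu hv hQ1 hQ2)
  have f2 := fd hA hH hT0 hC hws (hb.trans hyz)
    (h H T W a hH hCH hB hW y z v w hy hy2 hz hz2 hv hw hQ2 hQ3)
  have f3 := fd hA hH hT0 hC hws (hb.trans hzx)
    (h H T W a hH hCH hB hW z x w u hz hz2 hx hx2 hw hu hQ3 hQ1)
  have hq := qq_bd hd hA hH hC hAT hB hW hb hx hx2 hy hy2 hz hz2 hxy hyz hzx hu hv hw hQ1 hQ2 hQ3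
    f1 f2 f3 hdet
  rw [← hK] at hq
  have hk := u_kap hd hA hH hAT hB hW hW2 hx hu hQ1
  have hk2 := kap_le hd hA hB
  have hs : |kap d a + u| ≤ (A + A ^ 2) * H := (abs_add_le _ _).trans (by linarith)
  have hr := qq_sub (by omega : 3 ≤ d) hA hH hB hs (by positivity)
  have hrho : rho d a = qq d a (kap d a) := rfl
  rw [hrho]
  have e1 : |qq d a (kap d a)| ≤ |qq d a (kap d a) - qq d a u| + |qq d a u| := by
    have := abs_add_le (qq d a (kap d a) - qq d a u) (qq d a u)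
    rwa [sub_add_cancel] at this
  have e2 : A * ((A + A ^ 2) + 1) * H * |kap d a - u| ≤ L * (H ^ 3 / T) := by
    rw [abs_sub_comm]
    calc A * ((A + A ^ 2) + 1) * H * |u - kap d a| ≤ A * ((A + A ^ 2) + 1) * H *
        ((A ^ 2 + ((d : ℝ) + 1) ^ 2 * A ^ 4) * (H ^ 2 / T)) :=
          mul_le_mul_of_nonneg_left hk (by positivity)
      _ = _ := by rw [hL]; ring
  have e3 : W / T ^ (d - 1) * T ^ 3 / b ^ 2 = W * T ^ 3 / (T ^ (d - 1) * b ^ 2) := by
    have : 0 < T ^ (d - 1) := by positivity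
    generalize T ^ (d - 1) = τ at this
    field_simp
  rw [e3] at hq
  have p1 : 0 ≤ W * T ^ 3 / (T ^ (d - 1) * b ^ 2) := by positivity
  have p2 : 0 ≤ H ^ 3 / T := by positivity
  generalize W * T ^ 3 / (T ^ (d - 1) * b ^ 2) = s at hq p1 ⊢
  generalize H ^ 3 / T = r at hq e2 p2 ⊢
  have q1 : 0 ≤ (C + A + K + L) * s := by positivity
  have q2 : 0 ≤ (C + A + 24) * r := by positivity
  calc |qq d a (kap d a)| ≤ L * r + (24 * s + K * r) := e1.trans (add_le_add (hr.trans e2) hq)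
    _ ≤ (C + A + 24 + K + L) * (r + s) := by linarith

end Pool.Agent.Q124.UI
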